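import Pool.Agent.Y156.E.Main

/-!
# Etale motivic cohomology of proper regular arithmetic schemes: rational maps in dimension at most three

The question is whether `H^i(X_et, ℤ(d))`, `d = dim X`, is finitely generated for `0 ≤ i ≤ 2 d`, for all
proper regular connected arithmetic schemes `X`. Say that `X'` covers `X` if there is a projective
surjective morphism from `X'` to `X`, or if `X'` is projective of dimension at most three and there is a
dominant rational map from `X'` to `X`.

1. If `X'` covers `X`, `dim X' = dim X + e`, `n ≥ dim X`, `i ≤ 2 n`, and `H^(i + 2 e)(X'_et, ℤ(n + e))` is
  finitely generated, then so is `H^i(X_et, ℤ(n))`. In particular the question is birationally invariant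
  for projective schemes of dimension at most three.
2. The question has a positive answer for all `X` that are covered by a projective bundle over a scheme
  of dimension at most one, moreover in all the weights `n ≥ d` and all the degrees `i ≤ 2 n`, and the
  groups of negative degree are zero. For instance, this holds if `dim X ≤ 3` and the generic fibre of `X`
  is a geometrically rational surface over a number field. The base of the bundle can be any scheme
  with the same property (for instance, the question for `X` of dimension three with a ruled generic
  fibre reduces to arithmetic surfaces).

The etale motivic cohomology is given by its known properties (`IsEtale`).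
-/

set_option autoImplicit false

namespace Pool.Agent.Results.MP_c71c7a_nt.RationalDomination

open Pool.Agent.Y156.E

/-- Descent along rational maps in dimension at most three, and covered schemes. -/
theorem result (T : EtaleData) (hT : IsEtale T) :
    (∀ {X' X : T.V}, Covers X' X → ∀ n i : ℤ, (T.dim X : ℤ) ≤ n → i ≤ 2 * n →
      AddGroup.FG (T.H X' (i + 2 * ((T.dim X' : ℤ) - T.dim X)) (n + ((T.dim X' : ℤ) - T.dim X))) →
      AddGroup.FG (T.H X i n)) ∧
    (∀ {P Y X : T.V} {k : ℕ}, T.IsBundle P Y k → (T.dim Y ≤ 1 ∨ FiniteAndZero Y) →
      Covers P X → FiniteAndZero X) :=
  ⟨fun h _ _ hn hi hfg => fg_of_covers hT h hn hi hfg,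
    fun h hY hX => finiteAndZero_of_covers hT h hY hX⟩

end Pool.Agent.Results.MP_c71c7a_nt.RationalDomination
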