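import Pool.Agent.Y156.E.Main

/-!
# Finite generation in the degrees between zero and `2 d` implies everything in the weights at least `d`

The question is whether `H^i(X_et, ℤ(d))`, `d = dim X`, is finitely generated for `0 ≤ i ≤ 2 d`, for all
proper regular connected arithmetic schemes `X`.

1. A positive answer for the schemes in a class of large dimension, such that each `X` has a projective
  surjective morphism from an element of the class (for instance, the projective schemes with strictly
  semistable reduction, by the theorem of de Jong on alterations), implies the finite generation of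
  `H^i(X_et, ℤ(n))` for all `X`, all `n ≥ dim X` and all `i ≤ 2 n`, and the vanishing (conjecture of
  Beilinson and Soule) of the groups `H^i(X_et, ℤ(n))` for all `i < 0`, `n ≥ dim X`.
2. The same holds for each value `c = 2 n - i` separately: the finite generation of
  `H^(2 (dim X + t) - c)(X_et, ℤ(dim X + t))` for the schemes of the class implies the finite generation of
  `H^(2 n - c)(X_et, ℤ(n))` for all `X` and all `n ≥ dim X + t`.

The etale motivic cohomology is given by its known properties (`IsEtale`).
-/

set_option autoImplicit false

namespace Pool.Agent.Results.MP_c71c7a_nt.VanishingFromFiniteness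

open Pool.Agent.Y156.E

/-- The reduction to dominating classes of large dimension and to nonnegative degrees. -/
theorem result (T : EtaleData) (hT : IsEtale T) {S : T.V → Prop} (hS : Dominating S) (D : ℕ) :
    ((∀ X, S X → D ≤ T.dim X → FiniteInRange X) → ∀ X : T.V, FiniteAndZero X) ∧
    (∀ (t : ℕ) (c : ℤ),
      (∀ X, S X → D ≤ T.dim X → c ≤ 2 * (T.dim X + t) →
        AddGroup.FG (T.H X (2 * (T.dim X + t) - c) (T.dim X + t))) →
      ∀ (X : T.V) (n : ℤ), (T.dim X : ℤ) + t ≤ n → AddGroup.FG (T.H X (2 * n - c) n)) :=
  ⟨fun hfg => finiteAndZero_of_range hT hS D hfg, fun t c hfg => reduction hT hS D t c hfg⟩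

end Pool.Agent.Results.MP_c71c7a_nt.VanishingFromFiniteness
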